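import Pool.Agent.Lib.MP_144d21_co.XU.H28.Submod

/-!
# MP_144d21_co, project XU: module STEPA (conditioning step)
-/

set_option autoImplicit false

namespace Pool.Agent.Xu.H28

open Finset Pool.Agent.Xu

variable {V : Type} [Fintype V] [DecidableEq V]

/-- restriction to `A` -/
def rA (A : Finset V) (c : V → ℕ) : V → ℕ := fun u => if u ∈ A then c u else 0

theorem rA_eq {A : Finset V} {c c' : V → ℕ} : rA A c' = rA A c ↔ ∀ u ∈ A, c' u = c u := by
  constructor
  · intro h u hu
    have := congrFun h u
    simpa only [rA, if_pos hu] using this
  · intro h
    funext u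
    unfold rA
    by_cases hu : u ∈ A
    · rw [if_pos hu, if_pos hu, h u hu]
    · rw [if_neg hu, if_neg hu]

theorem stepa : StepaS := by
  classical
  intro V _ _ G S A v i j hvS hvA hAS hij hj
  have h := submod (V → ℕ) ((V → ℕ) × ℕ) ((V → ℕ) × (V → ℕ)) ℕ (cols G S 4)
    (fun c => (rA A c, merge i j (c v))) (fun c => (rA A c, rA S fun u => merge i j (c u)))
    (fun c => c v) (by
      intro a _ b _ hab
      simp only [Prod.mk.injEq] at hab ⊢
      exact ⟨hab.1, rA_eq.1 hab.2 v hvS⟩)
  refine le_trans (le_of_eq ?_) (h.trans (Finset.sum_le_sum ?_))
  · refine Finset.sum_congr rfl fun c _ => ?_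
    have e1 : cM G S A i j c = ((cols G S 4).filter fun b =>
        (rA A b, rA S fun u => merge i j (b u)) = (rA A c, rA S fun u => merge i j (c u))).card := by
      unfold cM
      refine congrArg Finset.card (Finset.filter_congr fun b _ => ?_)
      simp only [Prod.mk.injEq, rA_eq]
    have e2 : cM G S (insert v A) i j c = ((cols G S 4).filter fun b =>
        (rA A b, rA S fun u => merge i j (b u)) = (rA A c, rA S fun u => merge i j (c u)) ∧
        b v = c v).card := by
      unfold cM
      refine congrArg Finset.card (Finset.filter_congr fun b _ => ?_)
      simp only [Prod.mk.injEq, rA_eq, Finset.mem_insert, forall_eq_or_imp]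
      tauto
    rw [e1, e2]
  · intro c _
    have e3 : ((cols G S 4).filter fun b =>
        (rA A b, merge i j (b v)) = (rA A c, merge i j (c v)) ∧ b v = c v).card =
        cL G S A v (c v) c := by
      unfold cL
      refine congrArg Finset.card (Finset.filter_congr fun b _ => ?_)
      simp only [Prod.mk.injEq, rA_eq]
      constructor
      · rintro ⟨⟨h1, -⟩, h2⟩; exact ⟨h1, h2⟩
      · rintro ⟨h1, h2⟩; exact ⟨⟨h1, by rw [h2]⟩, h2⟩
    by_cases hc : c v = i ∨ c v = j
    · rw [if_pos hc]
      have e4 : ((cols G S 4).filter fun b =>
          (rA A b, merge i j (b v)) = (rA A c, merge i j (c v))).card =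
          cL G S A v i c + cL G S A v j c := by
        unfold cL
        rw [← Finset.card_union_of_disjoint]
        · refine congrArg Finset.card ?_
          ext b
          simp only [Finset.mem_union, Finset.mem_filter, Prod.mk.injEq, rA_eq]
          have hm : merge i j (c v) = i := by
            unfold merge
            rcases hc with hc | hc
            · rw [hc, if_neg hij.ne]
            · rw [hc, if_pos rfl]
          have hm2 : merge i j (b v) = i ↔ b v = i ∨ b v = j := by
            unfold merge
            by_cases hb : b v = j
            · rw [if_pos hb]; tauto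
            · rw [if_neg hb]; tauto
          rw [hm, hm2]
          tauto
        · rw [Finset.disjoint_left]
          intro b hb hb'
          have h1 := (Finset.mem_filter.1 hb).2.2
          have h2 := (Finset.mem_filter.1 hb').2.2
          omega
      rw [e3, e4]
    · rw [if_neg hc]
      have e5 : ((cols G S 4).filter fun b =>
          (rA A b, merge i j (b v)) = (rA A c, merge i j (c v))).card =
          cL G S A v (c v) c := by
        unfold cL
        refine congrArg Finset.card (Finset.filter_congr fun b _ => ?_)
        simp only [Prod.mk.injEq, rA_eq]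
        refine and_congr_right fun _ => ?_
        push Not at hc
        unfold merge
        rw [if_neg hc.2]
        by_cases hb : b v = j
        · rw [if_pos hb, hb]
          exact ⟨fun h => absurd h.symm hc.1, fun h => absurd h.symm hc.2⟩
        · rw [if_neg hb]
      rw [e3, e5, sub_self]

end Pool.Agent.Xu.H28
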