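import Pool.Agent.Lib.MP_144d21_co.XU.Iface

/-!
# MP_144d21_co, project XU: module SUBMOD (submodularity of entropy)
-/

set_option autoImplicit false

namespace Pool.Agent.Xu.H28

open Finset Pool.Agent.Xu

/-- for fixed `b`: the sum over `a` with `y a = y b`, `w a = w b` of `#z(a) / #zw(a)` is at most
`#y(b)` -/
theorem submod_inner {ι α β γ : Type} [DecidableEq ι] [DecidableEq α] [DecidableEq β]
    [DecidableEq γ] (Ω : Finset ι) (y : ι → α) (z : ι → β) (w : ι → γ)
    (hyz : ∀ a ∈ Ω, ∀ b ∈ Ω, z a = z b → y a = y b) (b : ι) :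
    ∑ a ∈ Ω, (if y b = y a ∧ w b = w a then
      ((Ω.filter fun c => z c = z a).card : ℝ) / ((Ω.filter fun c => z c = z a ∧ w c = w a).card : ℝ)
      else 0) ≤ ((Ω.filter fun c => y c = y b).card : ℝ) := by
  have h1 : ∀ a ∈ Ω, (if y b = y a ∧ w b = w a then
      ((Ω.filter fun c => z c = z a).card : ℝ) / ((Ω.filter fun c => z c = z a ∧ w c = w a).card : ℝ)
      else 0) = ∑ c ∈ Ω, (if (y b = y a ∧ w b = w a) ∧ z c = z a then
        (((Ω.filter fun c => z c = z a ∧ w c = w a).card : ℝ))⁻¹ else 0) := by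
    intro a _
    by_cases h : y b = y a ∧ w b = w a
    · simp only [h, and_self, true_and, if_true]
      rw [← Finset.sum_filter, Finset.sum_const, nsmul_eq_mul, div_eq_mul_inv]
    · simp only [h, false_and, if_false, Finset.sum_const_zero]
  rw [Finset.sum_congr rfl h1, Finset.sum_comm, Finset.card_filter]
  push_cast
  refine Finset.sum_le_sum fun c hc => ?_
  by_cases hyc : y c = y b
  · simp only [hyc, if_true]
    have h2 : ∀ a ∈ Ω, (if (y b = y a ∧ w b = w a) ∧ z c = z a then
        (((Ω.filter fun c => z c = z a ∧ w c = w a).card : ℝ))⁻¹ else 0) ≤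
        (if z a = z c ∧ w a = w b then
          (((Ω.filter fun e => z e = z c ∧ w e = w b).card : ℝ))⁻¹ else 0) := by
      intro a _
      by_cases h : (y b = y a ∧ w b = w a) ∧ z c = z a
      · rw [if_pos h, if_pos ⟨h.2.symm, h.1.2.symm⟩, h.2, h.1.2]
      · rw [if_neg h]
        split_ifs <;> positivity
    refine (Finset.sum_le_sum h2).trans ?_
    rw [← Finset.sum_filter, Finset.sum_const, nsmul_eq_mul]
    exact mul_inv_le_one
  · simp only [hyc, if_false]
    refine (Finset.sum_eq_zero fun a ha => ?_).le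
    rw [if_neg]
    rintro ⟨⟨h1, -⟩, h2⟩
    exact hyc ((hyz c hc a ha h2).trans h1.symm)

theorem submod : SubmodS := by
  intro ι α β γ _ _ _ _ Ω y z w hyz
  have hpos : ∀ (P : ι → ι → Prop) [∀ a, DecidablePred (P a)], (∀ a, P a a) → ∀ a ∈ Ω,
      (0 : ℝ) < ((Ω.filter fun b => P a b).card : ℝ) := by
    intro P _ hP a ha
    have : 0 < (Ω.filter fun b => P a b).card :=
      Finset.card_pos.2 ⟨a, Finset.mem_filter.2 ⟨ha, hP a⟩⟩
    exact_mod_cast this
  have hZ : ∀ a ∈ Ω, (0 : ℝ) < ((Ω.filter fun b => z b = z a).card : ℝ) := fun a ha =>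
    hpos (fun a b => z b = z a) (fun _ => rfl) a ha
  have hZW : ∀ a ∈ Ω, (0 : ℝ) < ((Ω.filter fun b => z b = z a ∧ w b = w a).card : ℝ) :=
    fun a ha => hpos (fun a b => z b = z a ∧ w b = w a) (fun _ => ⟨rfl, rfl⟩) a ha
  have hY : ∀ a ∈ Ω, (0 : ℝ) < ((Ω.filter fun b => y b = y a).card : ℝ) := fun a ha =>
    hpos (fun a b => y b = y a) (fun _ => rfl) a ha
  have hYW : ∀ a ∈ Ω, (0 : ℝ) < ((Ω.filter fun b => y b = y a ∧ w b = w a).card : ℝ) :=
    fun a ha => hpos (fun a b => y b = y a ∧ w b = w a) (fun _ => ⟨rfl, rfl⟩) a ha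
  have key : ∑ a ∈ Ω, (((Ω.filter fun b => z b = z a).card : ℝ) *
      ((Ω.filter fun b => y b = y a ∧ w b = w a).card : ℝ) /
      (((Ω.filter fun b => z b = z a ∧ w b = w a).card : ℝ) *
        ((Ω.filter fun b => y b = y a).card : ℝ))) ≤ ∑ a ∈ Ω, (1 : ℝ) := by
    have h1 : ∀ a ∈ Ω, (((Ω.filter fun b => z b = z a).card : ℝ) *
        ((Ω.filter fun b => y b = y a ∧ w b = w a).card : ℝ) /
        (((Ω.filter fun b => z b = z a ∧ w b = w a).card : ℝ) *
          ((Ω.filter fun b => y b = y a).card : ℝ))) =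
        ∑ b ∈ Ω, (if y b = y a ∧ w b = w a then
          ((Ω.filter fun c => z c = z a).card : ℝ) /
            ((Ω.filter fun c => z c = z a ∧ w c = w a).card : ℝ) else 0) *
          (((Ω.filter fun c => y c = y b).card : ℝ))⁻¹ := by
      intro a ha
      have h2 : ∀ b ∈ Ω, (if y b = y a ∧ w b = w a then
          ((Ω.filter fun c => z c = z a).card : ℝ) /
            ((Ω.filter fun c => z c = z a ∧ w c = w a).card : ℝ) else 0) *
          (((Ω.filter fun c => y c = y b).card : ℝ))⁻¹ =
          (if y b = y a ∧ w b = w a then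
          ((Ω.filter fun c => z c = z a).card : ℝ) /
            ((Ω.filter fun c => z c = z a ∧ w c = w a).card : ℝ) *
          (((Ω.filter fun c => y c = y a).card : ℝ))⁻¹ else 0) := by
        intro b _
        by_cases h : y b = y a ∧ w b = w a
        · rw [if_pos h, if_pos h, h.1]
        · rw [if_neg h, if_neg h, zero_mul]
      rw [Finset.sum_congr rfl h2, ← Finset.sum_filter, Finset.sum_const, nsmul_eq_mul]
      have := (hZW a ha).ne'
      have := (hY a ha).ne'
      field_simp
    rw [Finset.sum_congr rfl h1, Finset.sum_comm]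
    refine Finset.sum_le_sum fun b hb => ?_
    rw [← Finset.sum_mul, ← div_eq_mul_inv, div_le_one (hY b hb)]
    exact submod_inner Ω y z w hyz b
  have h3 : ∀ a ∈ Ω, (Real.log (Ω.filter fun b => z b = z a).card -
      Real.log (Ω.filter fun b => z b = z a ∧ w b = w a).card) -
      (Real.log (Ω.filter fun b => y b = y a).card -
      Real.log (Ω.filter fun b => y b = y a ∧ w b = w a).card) ≤
      (((Ω.filter fun b => z b = z a).card : ℝ) *
      ((Ω.filter fun b => y b = y a ∧ w b = w a).card : ℝ) /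
      (((Ω.filter fun b => z b = z a ∧ w b = w a).card : ℝ) *
        ((Ω.filter fun b => y b = y a).card : ℝ))) - 1 := by
    intro a ha
    have e1 := hZ a ha
    have e2 := hZW a ha
    have e3 := hY a ha
    have e4 := hYW a ha
    have h4 := Real.log_le_sub_one_of_pos (div_pos (mul_pos e1 e4) (mul_pos e2 e3))
    rw [Real.log_div (mul_pos e1 e4).ne' (mul_pos e2 e3).ne', Real.log_mul e1.ne' e4.ne',
      Real.log_mul e2.ne' e3.ne'] at h4
    linarith
  have h5 := Finset.sum_le_sum h3
  simp only [Finset.sum_sub_distrib] at h5 key ⊢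
  linarith

end Pool.Agent.Xu.H28
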